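import Mathlib

set_option autoImplicit false
open scoped ZeroAtInfty

namespace Pool.Agent.Lib_helper27.PropB

/-- Index set of the domain: the block `k` has `4 ^ k` elements. -/
abbrev Idx : Type := Σ k : ℕ, Fin (4 ^ k)

/-- Index set of the range: the block `k` has `2 ^ (4 ^ k)` elements. -/
abbrev Crd : Type := Σ k : ℕ, (Fin (4 ^ k) → Bool)

/-- The weight, `4 ^ (-k)` on the block `k`. -/
noncomputable def w (i : Idx) : ℝ := ((4 : ℝ) ^ i.1)⁻¹

lemma w_pos (i : Idx) : 0 < w i := by unfold w; positivity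

lemma w_ne (i : Idx) : w i ≠ 0 := (w_pos i).ne'

/-- sign attached to a Boolean -/
def sg (b : Bool) : ℝ := if b then 1 else -1

lemma sg_not (b : Bool) : sg (!b) = - sg b := by cases b <;> simp [sg]

lemma sg_sq (b : Bool) : sg b * sg b = 1 := by cases b <;> simp [sg]

lemma sg_abs (b : Bool) : |sg b| = 1 := by cases b <;> simp [sg]

/-- orthogonality of the Rademacher functions -/
lemma rad_orth (n : ℕ) (i j : Fin n) (hij : i ≠ j) :
    ∑ ω : Fin n → Bool, sg (ω i) * sg (ω j) = 0 := by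
  have hinv : Function.Involutive (fun ω : Fin n → Bool => Function.update ω i (!(ω i))) := by
    intro ω
    ext k
    by_cases hk : k = i
    · subst hk; simp
    · simp [Function.update_of_ne hk]
  have h := Equiv.sum_comp (hinv.toPerm _) (fun ω : Fin n → Bool => sg (ω i) * sg (ω j))
  have h2 : ∀ ω : Fin n → Bool,
      sg ((hinv.toPerm _ ω) i) * sg ((hinv.toPerm _ ω) j) = - (sg (ω i) * sg (ω j)) := by
    intro ω
    simp only [Function.Involutive.coe_toPerm, Function.update_self]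
    rw [Function.update_of_ne hij.symm, sg_not]
    ring
  simp only [h2, Finset.sum_neg_distrib] at h
  linarith

lemma rad_sq (n : ℕ) (c : Fin n → ℝ) :
    ∑ ω : Fin n → Bool, (∑ i, sg (ω i) * c i) ^ 2 = 2 ^ n * ∑ i, c i ^ 2 := by
  have h1 : ∀ ω : Fin n → Bool, (∑ i, sg (ω i) * c i) ^ 2
      = ∑ i, ∑ j, (c i * c j) * (sg (ω i) * sg (ω j)) := by
    intro ω
    rw [sq, Finset.sum_mul_sum]
    refine Finset.sum_congr rfl fun i _ => Finset.sum_congr rfl fun j _ => ?_
    ring
  simp only [h1]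
  rw [Finset.sum_comm]
  have h2 : ∀ i : Fin n, ∑ ω : Fin n → Bool, ∑ j, (c i * c j) * (sg (ω i) * sg (ω j))
      = 2 ^ n * c i ^ 2 := by
    intro i
    rw [Finset.sum_comm]
    rw [Finset.sum_eq_single i]
    · simp only [sg_sq, mul_one, Finset.sum_const, Finset.card_univ, Fintype.card_fun,
        Fintype.card_bool, Fintype.card_fin, nsmul_eq_mul, Nat.cast_pow, Nat.cast_ofNat]
      ring
    · intro j _ hj
      rw [← Finset.mul_sum, rad_orth n i j hj.symm, mul_zero]
    · simp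
  simp only [h2]
  rw [Finset.mul_sum]

/-- The `L¹` norm of a Rademacher sum is at most `√n` times the sup of the coefficients. -/
lemma rad_l1 (n : ℕ) (c : Fin n → ℝ) (B : ℝ) (hB : 0 ≤ B) (hc : ∀ i, |c i| ≤ B) :
    ∑ ω : Fin n → Bool, |∑ i, sg (ω i) * c i| ≤ 2 ^ n * (Real.sqrt n * B) := by
  have h1 := sq_sum_le_card_mul_sum_sq (s := (Finset.univ : Finset (Fin n → Bool)))
    (f := fun ω => |∑ i, sg (ω i) * c i|)
  simp only [sq_abs] at h1
  rw [rad_sq] at h1
  simp only [Finset.card_univ, Fintype.card_fun, Fintype.card_bool, Fintype.card_fin,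
    Nat.cast_pow, Nat.cast_ofNat] at h1
  have h2 : ∑ i, c i ^ 2 ≤ n * B ^ 2 := by
    calc ∑ i, c i ^ 2 ≤ ∑ _i : Fin n, B ^ 2 := by
          refine Finset.sum_le_sum fun i _ => ?_
          rw [← sq_abs]
          exact pow_le_pow_left₀ (abs_nonneg _) (hc i) 2
      _ = n * B ^ 2 := by simp
  have h3 : (∑ ω : Fin n → Bool, |∑ i, sg (ω i) * c i|) ^ 2 ≤ (2 ^ n * (Real.sqrt n * B)) ^ 2 := by
    calc (∑ ω : Fin n → Bool, |∑ i, sg (ω i) * c i|) ^ 2
        ≤ 2 ^ n * (2 ^ n * ∑ i, c i ^ 2) := h1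
      _ ≤ 2 ^ n * (2 ^ n * (n * B ^ 2)) := by gcongr
      _ = (2 ^ n * (Real.sqrt n * B)) ^ 2 := by
          have : Real.sqrt n ^ 2 = n := Real.sq_sqrt (Nat.cast_nonneg n)
          calc (2:ℝ) ^ n * (2 ^ n * (n * B ^ 2)) = (2 ^ n) ^ 2 * ((n : ℝ) * B ^ 2) := by ring
            _ = (2 ^ n) ^ 2 * (Real.sqrt n ^ 2 * B ^ 2) := by rw [this]
            _ = _ := by ring
  exact abs_le_of_sq_le_sq' h3 (by positivity) |>.2

/-- The Rademacher transform: coordinate `(k, ω)` of the image of `z`. -/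
noncomputable def rad (z : Idx → ℝ) (c : Crd) : ℝ :=
  ((2 : ℝ) ^ (4 ^ c.1))⁻¹ * ∑ i : Fin (4 ^ c.1), sg (c.2 i) * z ⟨c.1, i⟩

lemma rad_add (z z' : Idx → ℝ) (c : Crd) : rad (z + z') c = rad z c + rad z' c := by
  unfold rad
  simp only [Pi.add_apply, mul_add, Finset.sum_add_distrib]

lemma rad_smul (r : ℝ) (z : Idx → ℝ) (c : Crd) : rad (r • z) c = r * rad z c := by
  unfold rad
  simp only [Pi.smul_apply, smul_eq_mul]
  rw [Finset.mul_sum, Finset.mul_sum, Finset.mul_sum]
  refine Finset.sum_congr rfl fun i _ => ?_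
  ring

/-- Domain before taking the quotient. -/
abbrev E : Type := lp (fun _ : Idx => ℝ) 1 × C₀(Idx, ℝ)

/-- coordinates `a i + w i * b i` -/
noncomputable def crd (z : E) (i : Idx) : ℝ := z.1 i + w i * z.2 i


lemma crd_add (z z' : E) : crd (z + z') = crd z + crd z' := by
  ext i
  simp only [crd, Prod.fst_add, Prod.snd_add, lp.coeFn_add, Pi.add_apply,
    ZeroAtInftyContinuousMap.add_apply]
  ring

lemma crd_smul (r : ℝ) (z : E) : crd (r • z) = r • crd z := by
  ext i
  simp only [crd, Prod.smul_fst, Prod.smul_snd, lp.coeFn_smul, Pi.smul_apply,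
    ZeroAtInftyContinuousMap.smul_apply, smul_eq_mul]
  ring

lemma sum_norm_le {α : Type*} (F : α → Type*) [∀ i, NormedAddCommGroup (F i)]
    (a : lp F 1) (s : Finset α) : ∑ i ∈ s, ‖a i‖ ≤ ‖a‖ := by
  have h := lp.sum_rpow_le_norm_rpow (p := 1) (by simp) a s
  simpa using h

lemma abs_le_norm (b : C₀(Idx, ℝ)) (i : Idx) : |b i| ≤ ‖b‖ := by
  have := b.toBCF.norm_coe_le_norm i
  rw [ZeroAtInftyContinuousMap.norm_toBCF_eq_norm] at this
  simpa using this

lemma sum_crd_le (z : E) (s : Finset Crd) : ∑ c ∈ s, |rad (crd z) c| ≤ ‖z.1‖ + 2 * ‖z.2‖ := by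
  classical
  -- reduce to full blocks
  obtain ⟨N, hN⟩ : ∃ N : ℕ, s ⊆ (Finset.range N).sigma (fun k => (Finset.univ : Finset (Fin (4 ^ k) → Bool))) := by
    refine ⟨s.sup (fun c => c.1 + 1), ?_⟩
    intro c hc
    rw [Finset.mem_sigma]
    refine ⟨?_, Finset.mem_univ _⟩
    rw [Finset.mem_range]
    have := Finset.le_sup (f := fun c : Crd => c.1 + 1) hc
    exact this
  have hblock : ∀ k : ℕ, ∑ ω : Fin (4 ^ k) → Bool, |rad (crd z) ⟨k, ω⟩|
      ≤ (∑ i : Fin (4 ^ k), |z.1 ⟨k, i⟩|) + ((2 : ℝ) ^ k)⁻¹ * ‖z.2‖ := by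
    intro k
    have h1 : ∀ ω : Fin (4 ^ k) → Bool, |rad (crd z) ⟨k, ω⟩|
        ≤ ((2 : ℝ) ^ (4 ^ k))⁻¹ * (∑ i : Fin (4 ^ k), |z.1 ⟨k, i⟩|)
          + ((2 : ℝ) ^ (4 ^ k))⁻¹ * (((4 : ℝ) ^ k)⁻¹ *
            |∑ i : Fin (4 ^ k), sg (ω i) * z.2 ⟨k, i⟩|) := by
      intro ω
      have h2 : rad (crd z) ⟨k, ω⟩ = ((2 : ℝ) ^ (4 ^ k))⁻¹ * (∑ i : Fin (4 ^ k), sg (ω i) * z.1 ⟨k, i⟩)
          + ((2 : ℝ) ^ (4 ^ k))⁻¹ * (((4 : ℝ) ^ k)⁻¹ * ∑ i : Fin (4 ^ k), sg (ω i) * z.2 ⟨k, i⟩) := by
        simp only [rad, crd, w]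
        rw [← mul_add, Finset.mul_sum (a := ((4 : ℝ) ^ k)⁻¹),
          ← Finset.sum_add_distrib]
        congr 1
        refine Finset.sum_congr rfl fun i _ => ?_
        ring
      rw [h2]
      refine (abs_add_le _ _).trans ?_
      rw [abs_mul, abs_mul, abs_mul, abs_of_pos (by positivity : (0 : ℝ) < ((2 : ℝ) ^ (4 ^ k))⁻¹),
        abs_of_pos (by positivity : (0 : ℝ) < ((4 : ℝ) ^ k)⁻¹)]
      gcongr
      refine (Finset.abs_sum_le_sum_abs _ _).trans ?_
      refine Finset.sum_le_sum fun i _ => ?_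
      rw [abs_mul, sg_abs, one_mul]
    refine (Finset.sum_le_sum fun ω _ => h1 ω).trans ?_
    rw [Finset.sum_add_distrib]
    have h3 := rad_l1 (4 ^ k) (fun i => z.2 ⟨k, i⟩) ‖z.2‖ (norm_nonneg _)
      (fun i => abs_le_norm z.2 ⟨k, i⟩)
    have hs : Real.sqrt ((4 ^ k : ℕ) : ℝ) = 2 ^ k := by
      rw [show ((4 ^ k : ℕ) : ℝ) = (2 ^ k) ^ 2 by push_cast; rw [← pow_mul, mul_comm, pow_mul]; norm_num]
      exact Real.sqrt_sq (by positivity)
    rw [hs] at h3
    gcongr
    · rw [Finset.sum_const, nsmul_eq_mul, Finset.card_univ, Fintype.card_fun, Fintype.card_bool,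
        Fintype.card_fin]
      push_cast
      rw [← mul_assoc, mul_inv_cancel₀ (by positivity), one_mul]
    · rw [← Finset.mul_sum, ← Finset.mul_sum]
      calc ((2 : ℝ) ^ (4 ^ k))⁻¹ * (((4 : ℝ) ^ k)⁻¹ *
            ∑ ω : Fin (4 ^ k) → Bool, |∑ i : Fin (4 ^ k), sg (ω i) * z.2 ⟨k, i⟩|)
          ≤ ((2 : ℝ) ^ (4 ^ k))⁻¹ * (((4 : ℝ) ^ k)⁻¹ * (2 ^ (4 ^ k) * (2 ^ k * ‖z.2‖))) := by
            gcongr
        _ = ((2 : ℝ) ^ k)⁻¹ * ‖z.2‖ := by
            have h4 : (4 : ℝ) ^ k = 2 ^ k * 2 ^ k := by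
              rw [← mul_pow]; norm_num
            rw [h4]
            field_simp
  calc ∑ c ∈ s, |rad (crd z) c|
      ≤ ∑ c ∈ (Finset.range N).sigma (fun k => (Finset.univ : Finset (Fin (4 ^ k) → Bool))),
          |rad (crd z) c| :=
        Finset.sum_le_sum_of_subset_of_nonneg hN (fun _ _ _ => abs_nonneg _)
    _ = ∑ k ∈ Finset.range N, ∑ ω : Fin (4 ^ k) → Bool, |rad (crd z) ⟨k, ω⟩| := by
        rw [Finset.sum_sigma]
    _ ≤ ∑ k ∈ Finset.range N, ((∑ i : Fin (4 ^ k), |z.1 ⟨k, i⟩|) + ((2 : ℝ) ^ k)⁻¹ * ‖z.2‖) :=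
        Finset.sum_le_sum fun k _ => hblock k
    _ = (∑ k ∈ Finset.range N, ∑ i : Fin (4 ^ k), |z.1 ⟨k, i⟩|)
          + (∑ k ∈ Finset.range N, ((2 : ℝ) ^ k)⁻¹) * ‖z.2‖ := by
        rw [Finset.sum_add_distrib, Finset.sum_mul]
    _ ≤ ‖z.1‖ + 2 * ‖z.2‖ := by
        gcongr
        · have := sum_norm_le (fun _ : Idx => ℝ) z.1
            ((Finset.range N).sigma (fun k => (Finset.univ : Finset (Fin (4 ^ k)))))
          rw [Finset.sum_sigma] at this
          simpa using this
        · have h5 : ∀ k, ((2 : ℝ) ^ k)⁻¹ = (1 / 2) ^ k := by intro k; rw [one_div, inv_pow]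
          simp only [h5]
          have := Summable.sum_le_tsum (Finset.range N) (fun i _ => by positivity)
            (summable_geometric_two)
          rwa [tsum_geometric_two] at this


/-- evaluation functional `(a, b) ↦ a i + w i * b i` -/
noncomputable def ev (i : Idx) : E →L[ℝ] ℝ :=
  LinearMap.mkContinuous
    { toFun := fun z => crd z i
      map_add' := fun z z' => by rw [crd_add]; rfl
      map_smul' := fun r z => by rw [crd_smul]; rfl }
    (1 + w i) (by
      intro z
      simp only [LinearMap.coe_mk, AddHom.coe_mk, Real.norm_eq_abs, crd]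
      refine (abs_add_le _ _).trans ?_
      rw [abs_mul, abs_of_pos (w_pos i), add_mul, one_mul]
      have h1 : |z.1 i| ≤ ‖z‖ := by
        have := lp.norm_apply_le_norm (by norm_num : (1 : ENNReal) ≠ 0) z.1 i
        exact (by simpa using this : |z.1 i| ≤ ‖z.1‖).trans (norm_fst_le z)
      have h2 : |z.2 i| ≤ ‖z‖ := (abs_le_norm z.2 i).trans (norm_snd_le z)
      have := w_pos i
      gcongr)

lemma ev_apply (i : Idx) (z : E) : ev i z = crd z i := rfl

/-- the subspace that is divided out -/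
noncomputable def K : Submodule ℝ E := ⨅ i, (ev i).ker

lemma mem_K (z : E) : z ∈ K ↔ ∀ i, crd z i = 0 := by
  simp [K, Submodule.mem_iInf, ev_apply]

instance isClosed_K : IsClosed ((K : Submodule ℝ E) : Set E) := by
  have : ((K : Submodule ℝ E) : Set E) = ⋂ i, {z : E | ev i z = 0} := by
    ext z
    simp [mem_K, ev_apply]
  rw [this]
  exact isClosed_iInter fun i => isClosed_eq (ev i).continuous continuous_const

/-- The domain space. -/
def X : Type := E ⧸ K

noncomputable instance : NormedAddCommGroup X := inferInstanceAs (NormedAddCommGroup (E ⧸ K))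

noncomputable instance : NormedSpace ℝ X := inferInstanceAs (NormedSpace ℝ (E ⧸ K))

instance : CompleteSpace X := inferInstanceAs (CompleteSpace (E ⧸ K))

noncomputable def mk (z : E) : X := (Submodule.Quotient.mk z : E ⧸ K)

lemma mk_eq_iff (z z' : E) : mk z = mk z' ↔ ∀ i, crd z i = crd z' i := by
  change (Submodule.Quotient.mk z : E ⧸ K) = Submodule.Quotient.mk z' ↔ _
  rw [Submodule.Quotient.eq, mem_K]
  refine forall_congr' fun i => ?_
  have : crd (z - z') i = crd z i - crd z' i := by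
    rw [← ev_apply, ← ev_apply, ← ev_apply, map_sub]
  rw [this, sub_eq_zero]

lemma mk_add (z z' : E) : mk (z + z') = mk z + mk z' := rfl

lemma mk_smul (r : ℝ) (z : E) : mk (r • z) = r • mk z := rfl

lemma exists_rep (x : X) : ∃ z : E, mk z = x := Submodule.Quotient.mk_surjective K x

lemma norm_mk_le (z : E) : ‖mk z‖ ≤ ‖z‖ := Submodule.Quotient.norm_mk_le K z

lemma exists_rep_lt (x : X) (ε : ℝ) (hε : 0 < ε) : ∃ z : E, mk z = x ∧ ‖z‖ < ‖x‖ + ε :=
  Submodule.Quotient.norm_mk_lt x hε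

/-- unit vector of `c₀` -/
noncomputable def c0single (i : Idx) (r : ℝ) : C₀(Idx, ℝ) where
  toFun := Pi.single i r
  continuous_toFun := continuous_of_discreteTopology
  zero_at_infty' := by
    rw [Filter.cocompact_eq_cofinite]
    refine tendsto_nhds_of_eventually_eq ?_
    have : {j : Idx | ¬ (Pi.single i r : Idx → ℝ) j = 0} ⊆ {i} := by
      intro j hj
      by_contra hne
      exact hj (Pi.single_eq_of_ne (by simpa using hne) _)
    exact (Set.finite_singleton i).subset this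

lemma c0single_apply (i : Idx) (r : ℝ) (j : Idx) : c0single i r j = (Pi.single i r : Idx → ℝ) j := rfl

/-- replace the `i`-th coordinate of an element of `c₀` -/
lemma norm_c0_le (b : C₀(Idx, ℝ)) (C : ℝ) (hC : 0 ≤ C) (h : ∀ i, |b i| ≤ C) : ‖b‖ ≤ C := by
  rw [← ZeroAtInftyContinuousMap.norm_toBCF_eq_norm]
  rw [BoundedContinuousFunction.norm_le hC]
  intro i
  simpa using h i

/-- the basis vector `w i * e i = mk (0, e i)` -/
noncomputable def bv (i : Idx) : X := mk (0, c0single i 1)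

lemma norm_bv_le (i : Idx) : ‖bv i‖ ≤ w i := by
  have : bv i = mk (lp.single 1 i (w i), 0) := by
    unfold bv
    rw [mk_eq_iff]
    intro j
    by_cases hj : j = i
    · subst hj
      simp [crd, c0single_apply]
    · simp [crd, c0single_apply, hj]
  rw [this]
  refine (norm_mk_le _).trans ?_
  rw [Prod.norm_mk, norm_zero, lp.norm_single (by norm_num)]
  simp [abs_of_pos (w_pos i), (w_pos i).le]

/-- Flatness: changing one small coordinate by a small amount stays in the unit ball. -/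
lemma flat_one (z : E) (hz : ‖mk z‖ ≤ 1) (i : Idx) (hi : |crd z i| ≤ w i / 2) (c : ℝ)
    (hc : |c| ≤ 1 / 2) : ‖mk (z + (0, c0single i c))‖ ≤ 1 := by
  refine le_of_forall_pos_le_add fun ε hε => ?_
  obtain ⟨z', hz', hz'n⟩ := exists_rep_lt (mk z) ε hε
  have hz'1 : ‖z'‖ < 1 + ε := by linarith
  have hcz : ∀ j, crd z' j = crd z j := (mk_eq_iff z' z).1 hz'
  -- new representative
  set t : ℝ := crd z i / w i + c with ht
  have ht1 : |t| ≤ 1 := by
    refine (abs_add_le _ _).trans ?_
    rw [abs_div, abs_of_pos (w_pos i)]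
    have : |crd z i| / w i ≤ 1 / 2 := by
      rw [div_le_iff₀ (w_pos i)]; linarith
    linarith
  set z'' : E := (z'.1 - lp.single 1 i (z'.1 i), z'.2 + c0single i (t - z'.2 i)) with hz''
  have heq : mk (z + (0, c0single i c)) = mk z'' := by
    rw [mk_eq_iff]
    intro j
    rw [crd_add]
    by_cases hj : j = i
    · subst hj
      have h1 := w_ne j
      simp only [crd, hz'', c0single_apply, Pi.add_apply, lp.coeFn_sub, lp.coeFn_zero,
        Pi.sub_apply, lp.single_apply_self, ZeroAtInftyContinuousMap.add_apply, Pi.single_eq_same,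
        Pi.zero_apply, ht]
      field_simp
      ring
    · have h2 := hcz j
      simp only [crd, hz'', c0single_apply, Pi.add_apply, lp.coeFn_sub, lp.coeFn_zero,
        Pi.sub_apply, lp.single_apply_ne _ _ _ hj, ZeroAtInftyContinuousMap.add_apply,
        Pi.single_eq_of_ne hj, Pi.zero_apply] at h2 ⊢
      linarith
  rw [heq]
  refine (norm_mk_le _).trans ?_
  rw [hz'', Prod.norm_mk]
  refine max_le ?_ ?_
  · have h3 : ‖z'.1 - lp.single 1 i (z'.1 i)‖ ≤ ‖z'.1‖ := by
      refine lp.norm_mono (by norm_num) (fun j => ?_)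
      by_cases hj : j = i
      · subst hj
        simp
      · simp [Pi.single_eq_of_ne hj]
    exact h3.trans ((norm_fst_le z').trans hz'1.le)
  · refine norm_c0_le _ _ (by linarith [norm_nonneg z']) (fun j => ?_)
    by_cases hj : j = i
    · subst hj
      simp only [ZeroAtInftyContinuousMap.add_apply, c0single_apply, Pi.single_eq_same]
      rw [show z'.2 j + (t - z'.2 j) = t by ring]
      linarith
    · simp only [ZeroAtInftyContinuousMap.add_apply, c0single_apply, Pi.single_eq_of_ne hj, add_zero]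
      exact (abs_le_norm z'.2 j).trans ((norm_snd_le z').trans hz'1.le)


lemma flat_finset (s : Finset Idx) : ∀ (z : E), ‖mk z‖ ≤ 1 → (∀ i ∈ s, |crd z i| ≤ w i / 2) →
    ∀ c : Idx → ℝ, (∀ i, |c i| ≤ 1 / 2) → ‖mk z + ∑ i ∈ s, c i • bv i‖ ≤ 1 := by
  classical
  induction s using Finset.induction_on with
  | empty => intro z hz _ c _; simpa using hz
  | insert i s his ih =>
    intro z hz hs c hc
    have h1 : ‖mk (z + (0, c0single i (c i)))‖ ≤ 1 :=
      flat_one z hz i (hs i (Finset.mem_insert_self i s)) (c i) (hc i)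
    have h2 := ih (z + (0, c0single i (c i))) h1 (by
      intro j hj
      have hne : j ≠ i := fun h => his (h ▸ hj)
      have : crd (z + (0, c0single i (c i))) j = crd z j := by
        rw [crd_add]
        simp [crd, c0single_apply, Pi.single_eq_of_ne hne]
      rw [this]
      exact hs j (Finset.mem_insert_of_mem hj)) c hc
    have h3 : mk (z + (0, c0single i (c i))) = mk z + c i • bv i := by
      rw [mk_add]
      congr 1
      unfold bv
      rw [← mk_smul, mk_eq_iff]
      intro j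
      by_cases hj : j = i
      · subst hj
        simp [crd, c0single_apply]
      · simp [crd, c0single_apply, Pi.single_eq_of_ne hj]
    rw [h3] at h2
    rw [Finset.sum_insert his, ← add_assoc]
    exact h2

/-- The weights are not summable along the complement of the set where `|crd z i| > w i / 2`. -/
lemma not_bdd (z : E) (C : ℝ) :
    ∃ s : Finset Idx, (∀ i ∈ s, |crd z i| ≤ w i / 2) ∧ C < ∑ i ∈ s, w i := by
  classical
  -- the finite set where `b` is large
  have hfin : {i : Idx | ¬ |z.2 i| < 1 / 4}.Finite := by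
    have h1 : Filter.Tendsto (fun i => z.2 i) (Filter.cofinite) (nhds 0) := by
      rw [← Filter.cocompact_eq_cofinite]
      exact z.2.zero_at_infty'
    have h2 := (Metric.tendsto_nhds.1 h1) (1 / 4) (by norm_num)
    simpa [Filter.eventually_cofinite, Real.dist_eq] using h2
  set B : Finset Idx := hfin.toFinset with hB
  set D : ℝ := C + ∑ i ∈ B, w i + 4 * ‖z.1‖ with hD
  obtain ⟨N, hN⟩ := exists_nat_gt D
  set S : Finset Idx := (Finset.range N).sigma (fun k => (Finset.univ : Finset (Fin (4 ^ k)))) with hS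
  have hsum : ∑ i ∈ S, w i = N := by
    rw [hS, Finset.sum_sigma]
    have : ∀ k ∈ Finset.range N, ∑ i : Fin (4 ^ k), w ⟨k, i⟩ = 1 := by
      intro k _
      simp only [w]
      rw [Finset.sum_const, Finset.card_univ, Fintype.card_fin, nsmul_eq_mul]
      push_cast
      exact mul_inv_cancel₀ (by positivity)
    rw [Finset.sum_congr rfl this]
    simp
  refine ⟨S.filter (fun i => |crd z i| ≤ w i / 2), fun i hi => (Finset.mem_filter.1 hi).2, ?_⟩
  have h1 : ∑ i ∈ S, w i ≤ ∑ i ∈ S.filter (fun i => |crd z i| ≤ w i / 2), w i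
      + (∑ i ∈ B, w i + 4 * ‖z.1‖) := by
    rw [← Finset.sum_filter_add_sum_filter_not S (fun i => |crd z i| ≤ w i / 2)]
    have h2 : ∑ i ∈ S.filter (fun i => ¬ |crd z i| ≤ w i / 2), w i
        ≤ ∑ i ∈ B, w i + 4 * ‖z.1‖ := by
      calc ∑ i ∈ S.filter (fun i => ¬ |crd z i| ≤ w i / 2), w i
          ≤ ∑ i ∈ S.filter (fun i => ¬ |crd z i| ≤ w i / 2), ((if i ∈ B then w i else 0) + 4 * |z.1 i|) := by
            refine Finset.sum_le_sum fun i hi => ?_
            have hi2 := (Finset.mem_filter.1 hi).2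
            rw [not_le] at hi2
            by_cases hiB : i ∈ B
            · simp [hiB]
            · simp only [hiB, if_false, zero_add]
              have h3 : |z.2 i| < 1 / 4 := by
                by_contra h4
                exact hiB (by simpa [hB] using h4)
              have h5 : |crd z i| ≤ |z.1 i| + w i * |z.2 i| := by
                refine (abs_add_le _ _).trans ?_
                rw [abs_mul, abs_of_pos (w_pos i)]
              have h6 := w_pos i
              nlinarith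
        _ = ∑ i ∈ S.filter (fun i => ¬ |crd z i| ≤ w i / 2), (if i ∈ B then w i else 0)
            + 4 * ∑ i ∈ S.filter (fun i => ¬ |crd z i| ≤ w i / 2), |z.1 i| := by
            rw [Finset.sum_add_distrib, Finset.mul_sum]
        _ ≤ ∑ i ∈ B, w i + 4 * ‖z.1‖ := by
            gcongr
            · rw [← Finset.sum_filter]
              refine Finset.sum_le_sum_of_subset_of_nonneg ?_ (fun i _ _ => (w_pos i).le)
              intro i hi
              exact (Finset.mem_filter.1 hi).2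
            · simpa using sum_norm_le (fun _ : Idx => ℝ) z.1 _
    linarith
  rw [hsum] at h1
  linarith

instance : Infinite Crd :=
  Infinite.of_injective (fun k : ℕ => (⟨k, fun _ => true⟩ : Crd)) (by
    intro a b h
    simpa using congrArg Sigma.fst h)

lemma exists_eqv : Nonempty (ℕ ≃ Crd) := nonempty_equiv_of_countable

/-- Column identity: the Rademacher transform of `c • e i`. -/
lemma sum_rad_single (i : Idx) (s : Finset Crd)
    (hs : ∀ ω : Fin (4 ^ i.1) → Bool, (⟨i.1, ω⟩ : Crd) ∈ s) (z : E)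
    (hz : ∀ j, crd z j = if j = i then w i else 0) :
    w i ≤ ∑ c ∈ s, |rad (crd z) c| := by
  classical
  have h1 : ∀ ω : Fin (4 ^ i.1) → Bool, |rad (crd z) ⟨i.1, ω⟩| = ((2 : ℝ) ^ (4 ^ i.1))⁻¹ * w i := by
    intro ω
    unfold rad
    simp only [hz]
    rw [Finset.sum_eq_single i.2]
    · simp only [if_true, abs_mul, sg_abs, one_mul, abs_of_pos (w_pos i)]
      rw [abs_of_pos (by positivity)]
    · intro j _ hj
      have : (⟨i.1, j⟩ : Idx) ≠ i := by
        intro h
        apply hj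
        rw [Sigma.ext_iff] at h
        exact eq_of_heq h.2
      simp [this]
    · simp
  have h2 : (Finset.univ.image (fun ω : Fin (4 ^ i.1) → Bool => (⟨i.1, ω⟩ : Crd))) ⊆ s := by
    intro c hc
    obtain ⟨ω, _, rfl⟩ := Finset.mem_image.1 hc
    exact hs ω
  calc w i = ∑ c ∈ (Finset.univ.image (fun ω : Fin (4 ^ i.1) → Bool => (⟨i.1, ω⟩ : Crd))),
        |rad (crd z) c| := by
        rw [Finset.sum_image]
        · simp only [h1]
          rw [Finset.sum_const, nsmul_eq_mul, Finset.card_univ, Fintype.card_fun,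
            Fintype.card_bool, Fintype.card_fin]
          push_cast
          rw [← mul_assoc, mul_inv_cancel₀ (by positivity), one_mul]
        · intro a _ b _ h
          simpa using h
    _ ≤ _ := Finset.sum_le_sum_of_subset_of_nonneg h2 (fun _ _ _ => abs_nonneg _)

instance : Nontrivial X := by
  refine ⟨⟨mk (0, c0single ⟨0, 0⟩ 1), mk 0, fun h => ?_⟩⟩
  have h1 := (mk_eq_iff _ _).1 h ⟨0, 0⟩
  simp [crd, c0single_apply, w] at h1

/-- For every family of real normed spaces with infinitely many nonzero members, the operators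
from the fixed space `X` into the `ℓ₁`-sum which attain their norm on the closed unit ball are
not dense. -/
theorem core {α : Type*} (F : α → Type*) [∀ n, NormedAddCommGroup (F n)]
    [∀ n, NormedSpace ℝ (F n)] (hinf : {n | Nontrivial (F n)}.Infinite) :
    ¬ Dense {T : X →L[ℝ] lp F 1 | ∃ x : X, ‖x‖ ≤ 1 ∧ ‖T x‖ = ‖T‖} := by
  classical
  obtain ⟨e⟩ := exists_eqv
  let J : Crd ↪ α := (e.symm.toEmbedding.trans (Set.Infinite.natEmbedding _ hinf)).trans
    (Function.Embedding.subtype _)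
  have hJ : ∀ c, Nontrivial (F (J c)) :=
    fun c => ((Set.Infinite.natEmbedding _ hinf) (e.symm c)).2
  -- unit vectors and norming functionals in the fibres
  have hex : ∀ n, ∃ (f : F n) (g : StrongDual ℝ (F n)), ‖f‖ ≤ 1 ∧ ‖g‖ ≤ 1 ∧
      (Nontrivial (F n) → g f = 1) := by
    intro n
    by_cases hn : Nontrivial (F n)
    · obtain ⟨x, hx⟩ := exists_ne (0 : F n)
      have hx' : ‖x‖ ≠ 0 := norm_ne_zero_iff.2 hx
      obtain ⟨g, hg1, hg2⟩ := exists_dual_vector ℝ x hx'
      refine ⟨‖x‖⁻¹ • x, g, ?_, hg1.le, fun _ => ?_⟩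
      · rw [norm_smul, norm_inv, norm_norm, inv_mul_cancel₀ hx']
      · rw [map_smul, hg2]
        simp [hx']
    · exact ⟨0, 0, by simp, by simp, fun h => absurd h hn⟩
  choose f g hf hg hgf using hex
  -- coefficients
  set co : E → α → ℝ := fun z => Function.extend J (rad (crd z)) 0 with hco
  have hcoJ : ∀ z c, co z (J c) = rad (crd z) c := fun z c => J.injective.extend_apply _ _ c
  have hcoN : ∀ z a, a ∉ Set.range J → co z a = 0 := by
    intro z a ha
    simp only [hco]
    rw [Function.extend_apply']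
    · rfl
    · rintro ⟨c, hc⟩
      exact ha ⟨c, hc⟩
  have hsumco : ∀ (z : E) (s : Finset α), ∑ a ∈ s, |co z a| ≤ ‖z.1‖ + 2 * ‖z.2‖ := by
    intro z s
    have h1 := Finset.sum_preimage J s J.injective.injOn (fun a => |co z a|) (by
      intro a _ ha
      rw [hcoN z a ha, abs_zero])
    rw [← h1]
    simp only [hcoJ]
    exact sum_crd_le z _
  have hsum2 : ∀ (z : E) (s : Finset α), ∑ a ∈ s, ‖co z a • f a‖ ≤ ‖z.1‖ + 2 * ‖z.2‖ := by
    intro z s
    refine le_trans (Finset.sum_le_sum fun a _ => ?_) (hsumco z s)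
    rw [norm_smul, Real.norm_eq_abs]
    exact mul_le_of_le_one_right (abs_nonneg _) (hf a)
  -- the operator
  have hmem : ∀ z : E, Memℓp (fun a => co z a • f a) 1 := by
    intro z
    refine memℓp_gen' (C := ‖z.1‖ + 2 * ‖z.2‖) (fun s => ?_)
    simpa using hsum2 z s
  have hnorm : ∀ z : E, ‖(⟨fun a => co z a • f a, hmem z⟩ : lp F 1)‖
      ≤ ‖z.1‖ + 2 * ‖z.2‖ := by
    intro z
    refine lp.norm_le_of_forall_sum_le (by simp) (by positivity) (fun s => ?_)
    simpa using hsum2 z s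
  have hcoadd : ∀ z z' a, co (z + z') a = co z a + co z' a := by
    intro z z' a
    by_cases ha : a ∈ Set.range J
    · obtain ⟨c, rfl⟩ := ha
      rw [hcoJ, hcoJ, hcoJ, crd_add, rad_add]
    · rw [hcoN _ a ha, hcoN _ a ha, hcoN _ a ha, add_zero]
  have hcosmul : ∀ (r : ℝ) z a, co (r • z) a = r * co z a := by
    intro r z a
    by_cases ha : a ∈ Set.range J
    · obtain ⟨c, rfl⟩ := ha
      rw [hcoJ, hcoJ, crd_smul, rad_smul]
    · rw [hcoN _ a ha, hcoN _ a ha, mul_zero]
  let T0lin : E →ₗ[ℝ] lp F 1 :=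
    { toFun := fun z => ⟨fun a => co z a • f a, hmem z⟩
      map_add' := by
        intro z z'
        ext n
        simp only [hcoadd, lp.coeFn_add, Pi.add_apply, add_smul]
      map_smul' := by
        intro r z
        ext n
        simp only [hcosmul, lp.coeFn_smul, Pi.smul_apply, RingHom.id_apply, smul_smul] }
  let T0 : E →L[ℝ] lp F 1 := T0lin.mkContinuous 3 (by
    intro z
    refine (hnorm z).trans ?_
    have h1 := norm_fst_le z
    have h2 := norm_snd_le z
    linarith)
  have hT0 : ∀ z n, T0 z n = co z n • f n := fun z n => rfl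
  have hK : K ≤ T0.ker := by
    intro z hz
    rw [mem_K] at hz
    rw [LinearMap.mem_ker]
    ext n
    change T0 z n = 0
    rw [hT0]
    have h0 : crd z = 0 := funext hz
    have h1 : co z n = 0 := by
      by_cases ha : n ∈ Set.range J
      · obtain ⟨c, rfl⟩ := ha
        rw [hcoJ, h0]
        simp [rad]
      · exact hcoN z n ha
    rw [h1, zero_smul]
  obtain ⟨T, hT⟩ : ∃ T : X →L[ℝ] lp F 1, ∀ z, T (mk z) = T0 z :=
    ⟨(K.liftQL T0 hK : (E ⧸ K) →L[ℝ] lp F 1), fun z => by
      change (K.liftQL T0 hK) (Submodule.Quotient.mk z) = T0 z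
      simp⟩
  -- suppose the norm attaining operators are dense
  intro hdense
  obtain ⟨S, hSmem, hST⟩ := hdense.exists_dist_lt T (by norm_num : (0 : ℝ) < 1 / 2)
  obtain ⟨x, hx1, hx2⟩ := hSmem
  obtain ⟨z, rfl⟩ := exists_rep x
  set y : lp F 1 := S (mk z) with hy
  obtain ⟨s, hs1, hs2⟩ := not_bdd z (4 * ‖y‖)
  -- coordinate functionals
  set G : α → X → ℝ := fun n v => g n (S v n) with hG
  have hGadd : ∀ n (c : Idx → ℝ), G n (∑ i ∈ s, c i • bv i) = ∑ i ∈ s, c i * G n (bv i) := by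
    intro n c
    simp only [hG]
    rw [map_sum, lp.coeFn_sum, Finset.sum_apply, map_sum]
    refine Finset.sum_congr rfl fun i _ => ?_
    rw [map_smul, lp.coeFn_smul, Pi.smul_apply, map_smul, smul_eq_mul]
  -- domination by the coordinates of `y`
  have hdom : ∀ n (c : Idx → ℝ), (∀ i, |c i| ≤ 1 / 2) → |∑ i ∈ s, c i * G n (bv i)| ≤ ‖y n‖ := by
    intro n c hc
    set v : X := ∑ i ∈ s, c i • bv i with hv
    set u : lp F 1 := S v with hu
    have h1 : ‖y + u‖ ≤ ‖y‖ := by
      have h := flat_finset s z hx1 hs1 c hc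
      have h' : ‖S (mk z + v)‖ ≤ ‖S‖ * 1 :=
        (S.le_opNorm _).trans (mul_le_mul_of_nonneg_left h (norm_nonneg _))
      rw [map_add, mul_one, ← hx2] at h'
      exact h'
    have h2 : ‖y - u‖ ≤ ‖y‖ := by
      have h := flat_finset s z hx1 hs1 (fun i => - c i) (fun i => by rw [abs_neg]; exact hc i)
      have hv' : mk z + ∑ i ∈ s, (- c i) • bv i = mk z - v := by
        simp only [neg_smul, Finset.sum_neg_distrib, hv, sub_eq_add_neg]
      rw [hv'] at h
      have h' : ‖S (mk z - v)‖ ≤ ‖S‖ * 1 :=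
        (S.le_opNorm _).trans (mul_le_mul_of_nonneg_left h (norm_nonneg _))
      rw [map_sub, mul_one, ← hx2] at h'
      exact h'
    have hs1' : ∀ a : lp F 1, HasSum (fun m => ‖a m‖) ‖a‖ := by
      intro a
      have := lp.hasSum_norm (p := 1) (by simp) a
      simpa using this
    have h3 : HasSum (fun m => ‖(y + u) m‖ + ‖(y - u) m‖ - 2 * ‖y m‖)
        (‖y + u‖ + ‖y - u‖ - 2 * ‖y‖) :=
      ((hs1' (y + u)).add (hs1' (y - u))).sub ((hs1' y).mul_left 2)
    have h4 : ∀ m, 0 ≤ ‖(y + u) m‖ + ‖(y - u) m‖ - 2 * ‖y m‖ := by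
      intro m
      have : 2 * ‖y m‖ ≤ ‖(y + u) m‖ + ‖(y - u) m‖ := by
        calc 2 * ‖y m‖ = ‖(y + u) m + (y - u) m‖ := by
              rw [lp.coeFn_add, lp.coeFn_sub, Pi.add_apply, Pi.sub_apply,
                show y m + u m + (y m - u m) = (2 : ℝ) • y m by rw [two_smul]; abel, norm_smul]
              simp
          _ ≤ _ := norm_add_le _ _
      linarith
    have h5 : ‖(y + u) n‖ + ‖(y - u) n‖ - 2 * ‖y n‖ ≤ 0 := by
      refine (le_hasSum h3 n (fun m _ => h4 m)).trans ?_
      linarith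
    have h6 : 2 * ‖u n‖ ≤ ‖(y + u) n‖ + ‖(y - u) n‖ := by
      calc 2 * ‖u n‖ = ‖(y + u) n - (y - u) n‖ := by
            rw [lp.coeFn_add, lp.coeFn_sub, Pi.add_apply, Pi.sub_apply,
              show y n + u n - (y n - u n) = (2 : ℝ) • u n by rw [two_smul]; abel, norm_smul]
            simp
        _ ≤ _ := norm_sub_le _ _
    have h7 : ‖u n‖ ≤ ‖y n‖ := by linarith
    rw [← hGadd n c]
    calc |G n (∑ i ∈ s, c i • bv i)| = ‖g n (u n)‖ := by rw [Real.norm_eq_abs]
      _ ≤ ‖g n‖ * ‖u n‖ := (g n).le_opNorm _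
      _ ≤ 1 * ‖u n‖ := mul_le_mul_of_nonneg_right (hg n) (norm_nonneg _)
      _ ≤ ‖y n‖ := by rw [one_mul]; exact h7
  have hdom2 : ∀ n, ∑ i ∈ s, |G n (bv i)| ≤ 2 * ‖y n‖ := by
    intro n
    have h := hdom n (fun i => if 0 ≤ G n (bv i) then 1 / 2 else -1 / 2) (by
      intro i
      split_ifs <;> norm_num [abs_le])
    have h' : ∑ i ∈ s, (if 0 ≤ G n (bv i) then (1 : ℝ) / 2 else -1 / 2) * G n (bv i)
        = (1 / 2) * ∑ i ∈ s, |G n (bv i)| := by
      rw [Finset.mul_sum]
      refine Finset.sum_congr rfl fun i _ => ?_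
      split_ifs with h0
      · rw [abs_of_nonneg h0]
      · rw [abs_of_neg (not_le.1 h0)]; ring
    rw [h'] at h
    have := (le_abs_self _).trans h
    linarith
  -- the finite set of all relevant coordinates
  set tc : Finset Crd := s.biUnion (fun i =>
    Finset.univ.image (fun ω : Fin (4 ^ i.1) → Bool => (⟨i.1, ω⟩ : Crd))) with htc
  set t : Finset α := tc.map J with ht
  have hlow : ∀ i ∈ s, w i / 2 ≤ ∑ n ∈ t, |G n (bv i)| := by
    intro i hi
    have hcrd : ∀ j, crd (0, c0single i 1) j = if j = i then w i else 0 := by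
      intro j
      by_cases hj : j = i
      · subst hj
        simp [crd, c0single_apply]
      · simp [crd, c0single_apply, hj]
    have h1 : w i ≤ ∑ n ∈ t, |g n (T (bv i) n)| := by
      have h := sum_rad_single i tc (by
        intro ω
        rw [htc, Finset.mem_biUnion]
        exact ⟨i, hi, Finset.mem_image_of_mem _ (Finset.mem_univ ω)⟩) _ hcrd
      refine h.trans (le_of_eq ?_)
      rw [ht, Finset.sum_map]
      refine Finset.sum_congr rfl fun c _ => ?_
      have : T (bv i) (J c) = rad (crd (0, c0single i 1)) c • f (J c) := by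
        unfold bv
        rw [hT, hT0, hcoJ]
      rw [this, map_smul, hgf _ (hJ c), smul_eq_mul, mul_one]
    have h2 : ∑ n ∈ t, |g n ((T - S) (bv i) n)| ≤ w i / 2 := by
      calc ∑ n ∈ t, |g n ((T - S) (bv i) n)| ≤ ∑ n ∈ t, ‖(T - S) (bv i) n‖ := by
            refine Finset.sum_le_sum fun n _ => ?_
            have h3 := (g n).le_opNorm ((T - S) (bv i) n)
            rw [Real.norm_eq_abs] at h3
            refine h3.trans ?_
            calc ‖g n‖ * ‖(T - S) (bv i) n‖ ≤ 1 * ‖(T - S) (bv i) n‖ :=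
                  mul_le_mul_of_nonneg_right (hg n) (norm_nonneg _)
              _ = _ := one_mul _
        _ ≤ ‖(T - S) (bv i)‖ := sum_norm_le F _ t
        _ ≤ ‖T - S‖ * ‖bv i‖ := (T - S).le_opNorm _
        _ ≤ (1 / 2) * w i := by
            have h3 : ‖T - S‖ ≤ 1 / 2 := by
              rw [← dist_eq_norm]
              exact hST.le
            exact mul_le_mul h3 (norm_bv_le i) (norm_nonneg _) (by norm_num)
        _ = w i / 2 := by ring
    have h3 : ∑ n ∈ t, |g n (T (bv i) n)| ≤ ∑ n ∈ t, |g n ((T - S) (bv i) n)| + ∑ n ∈ t, |G n (bv i)| := by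
      rw [← Finset.sum_add_distrib]
      refine Finset.sum_le_sum fun n _ => ?_
      have : g n (T (bv i) n) = g n ((T - S) (bv i) n) + G n (bv i) := by
        simp only [hG]
        rw [← map_add]
        congr 1
        simp
      rw [this]
      exact abs_add_le _ _
    linarith
  have hfin : ∑ i ∈ s, w i / 2 ≤ 2 * ‖y‖ := by
    calc ∑ i ∈ s, w i / 2 ≤ ∑ i ∈ s, ∑ n ∈ t, |G n (bv i)| := Finset.sum_le_sum hlow
      _ = ∑ n ∈ t, ∑ i ∈ s, |G n (bv i)| := Finset.sum_comm
      _ ≤ ∑ n ∈ t, 2 * ‖y n‖ := Finset.sum_le_sum fun n _ => hdom2 n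
      _ = 2 * ∑ n ∈ t, ‖y n‖ := by rw [Finset.mul_sum]
      _ ≤ 2 * ‖y‖ := by
          have := sum_norm_le F y t
          linarith
  rw [← Finset.sum_div] at hfin
  linarith

/-- Density of the norm-attaining operators passes along an isometric change of domain. -/
theorem transport {X₁ X₂ Y : Type*} [NormedAddCommGroup X₁] [NormedSpace ℝ X₁]
    [NormedAddCommGroup X₂] [NormedSpace ℝ X₂] [NormedAddCommGroup Y] [NormedSpace ℝ Y]
    (Φ : X₁ ≃ₗᵢ[ℝ] X₂)
    (h : Dense {T : X₂ →L[ℝ] Y | ∃ x : X₂, ‖x‖ ≤ 1 ∧ ‖T x‖ = ‖T‖}) :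
    Dense {T : X₁ →L[ℝ] Y | ∃ x : X₁, ‖x‖ ≤ 1 ∧ ‖T x‖ = ‖T‖} := by
  rw [Metric.dense_iff]
  intro T r hr
  obtain ⟨S, ⟨x, hx1, hx2⟩, hS⟩ := h.exists_dist_lt
    (T.comp (Φ.symm.toContinuousLinearEquiv : X₂ →L[ℝ] X₁)) hr
  refine ⟨S.comp (Φ.toContinuousLinearEquiv : X₁ →L[ℝ] X₂), ?_, Φ.symm x, ?_, ?_⟩
  · rw [Metric.mem_ball, dist_eq_norm]
    rw [dist_comm, dist_eq_norm] at hS
    refine lt_of_le_of_lt ?_ hS
    refine ContinuousLinearMap.opNorm_le_bound _ (norm_nonneg _) fun v => ?_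
    have h1 := (S - T.comp (Φ.symm.toContinuousLinearEquiv : X₂ →L[ℝ] X₁)).le_opNorm (Φ v)
    rw [Φ.norm_map] at h1
    simpa using h1
  · rw [Φ.symm.norm_map]
    exact hx1
  · have h1 : ‖S.comp (Φ.toContinuousLinearEquiv : X₁ →L[ℝ] X₂)‖ = ‖S‖ := by
      refine le_antisymm ?_ ?_
      · refine ContinuousLinearMap.opNorm_le_bound _ (norm_nonneg _) fun v => ?_
        have h2 := S.le_opNorm (Φ v)
        rw [Φ.norm_map] at h2
        simpa using h2
      · refine ContinuousLinearMap.opNorm_le_bound _ (norm_nonneg _) fun v => ?_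
        have h2 := (S.comp (Φ.toContinuousLinearEquiv : X₁ →L[ℝ] X₂)).le_opNorm (Φ.symm v)
        rw [Φ.symm.norm_map] at h2
        simpa using h2
    rw [h1, ← hx2]
    simp

end Pool.Agent.Lib_helper27.PropB
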